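import Mathlib
import Pool.Agent.H70.Dag1

set_option autoImplicit false

namespace Pool.Agent.Results.MP_3a69bf_ag.NotToric

open MvPolynomial Relation Matrix Pool.Agent.H70.Dag

section defs
variable {V : Type} [Fintype V] [DecidableEq V]

/-- the Gaussian DAG model, as a set of symmetric matrices (functions on unordered pairs) -/
def Model (E : V → V → Prop) : Set (Sym2 V → ℝ) :=
  {p | ∃ (Λ : Matrix V V ℝ) (ω : V → ℝ), (∀ i j, ¬E i j → Λ i j = 0) ∧ (∀ i, 0 < ω i) ∧
    ∀ i j, p s(i, j) = ((1 - Λ)⁻¹ᵀ * diagonal ω * (1 - Λ)⁻¹ : Matrix V V ℝ) i j}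

/-- the vanishing ideal `I_G` -/
noncomputable def IG (E : V → V → Prop) : Ideal (MvPolynomial (Sym2 V) ℝ) :=
  vanishingIdeal ℝ (Model E)

/-- `p 0, …, p m` is a path (distinct vertices, edges of any orientation) from `i` to `j` -/
def IsPath (E : V → V → Prop) (i j : V) (m : ℕ) (p : ℕ → V) : Prop :=
  p 0 = i ∧ p m = j ∧ (∀ s ≤ m, ∀ t ≤ m, p s = p t → s = t) ∧
    ∀ t < m, E (p t) (p (t + 1)) ∨ E (p (t + 1)) (p t)

/-- the interior vertex `p (t+1)` is a collider -/
def Collider (E : V → V → Prop) (p : ℕ → V) (t : ℕ) : Prop :=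
  E (p t) (p (t + 1)) ∧ E (p (t + 2)) (p (t + 1))

/-- `Z` d-separates `i` and `j` -/
def DSep (E : V → V → Prop) (i j : V) (Z : Finset V) : Prop :=
  ∀ m p, IsPath E i j m p → ∃ t, t + 2 ≤ m ∧ ((¬Collider E p t ∧ p (t + 1) ∈ Z) ∨
    (Collider E p t ∧ ∀ d, ReflTransGen E (p (t + 1)) d → d ∉ Z))

/-- generated by binomials -/
def Binomial {ι : Type} (I : Ideal (MvPolynomial ι ℝ)) : Prop := ∃ S : Set (MvPolynomial ι ℝ),
  (∀ b ∈ S, ∃ (m m' : ι →₀ ℕ) (c c' : ℝ), b = monomial m c + monomial m' c') ∧ Ideal.span S = I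

/-- kernel of a homomorphism sending every variable to a monomial (or to `0`) -/
def MonKer {ι : Type} (I : Ideal (MvPolynomial ι ℝ)) : Prop :=
  ∃ (σ : Type) (χ : ι → MvPolynomial σ ℝ), (∀ e, χ e = 0 ∨ ∃ d, χ e = monomial d 1) ∧
    RingHom.ker (aeval χ : MvPolynomial ι ℝ →ₐ[ℝ] MvPolynomial σ ℝ) = I

end defs

variable {V : Type} [Fintype V] [DecidableEq V] {E : V → V → Prop} {r : V → ℕ}

omit [Fintype V] [DecidableEq V] in
theorem active (R : Rk E r) {i j : V} {Z : Finset V} (hi : i ∉ Z) (hj : j ∉ Z) {m : ℕ} {p : ℕ → V}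
    (h0 : p 0 = i) (h1 : p m = j) (h2 : ∀ t < m, E (p t) (p (t + 1)) ∨ E (p (t + 1)) (p t))
    (h3 : ∀ t, t + 2 ≤ m → (¬Collider E p t → p (t + 1) ∉ Z) ∧
      (Collider E p t → ∃ d, ReflTransGen E (p (t + 1)) d ∧ d ∈ Z)) :
    (∃ c ∈ Z, CA (fun x y => E x y ∧ x ∉ Z) i c) ∨ CA (fun x y => E x y ∧ x ∉ Z) i j := by
  have stop : ∀ v d, ReflTransGen E v d → d ∈ Z →
      ∃ c ∈ Z, ReflTransGen (fun x y => E x y ∧ x ∉ Z) v c := fun v d h hd => by
    induction h using ReflTransGen.head_induction_on with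
    | refl => exact ⟨d, hd, .refl⟩
    | @head a b e _ ih =>
      by_cases k : a ∈ Z
      · exact ⟨a, k, .refl⟩
      · obtain ⟨c, c1, c2⟩ := ih
        exact ⟨c, c1, .head ⟨e, k⟩ c2⟩
  have out : ∀ t ≤ m, (∃ u ≤ m, (u = t + 1 ∨ u + 1 = t) ∧ E (p t) (p u)) → p t ∉ Z := by
    rintro t ht ⟨u, hu, e, e'⟩
    rcases Nat.eq_zero_or_pos t with rfl | k
    · rwa [h0]
    rcases ht.eq_or_lt with rfl | k'
    · rwa [h1]
    obtain ⟨t, rfl⟩ : ∃ u, t = u + 1 := ⟨t - 1, by omega⟩
    refine (h3 t k').1 fun c => ?_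
    have := R.mono _ _ e'
    have := R.mono _ _ c.1
    have := R.mono _ _ c.2
    rcases e with rfl | e
    · rw [show t + 1 + 1 = t + 2 from rfl] at *; omega
    · obtain rfl : u = t := by omega
      omega
  have key : ∀ t ≤ m, (∃ c ∈ Z, CA (fun x y => E x y ∧ x ∉ Z) i c) ∨
      ∃ a, ReflTransGen (fun x y => E x y ∧ x ∉ Z) a i ∧
        ReflTransGen (fun x y => E x y ∧ x ∉ Z) a (p t) ∧
        (a = p t ∨ ∃ u, t = u + 1 ∧ E (p u) (p t)) := fun t ht => by
    induction t with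
    | zero => exact Or.inr ⟨i, .refl, h0 ▸ .refl, Or.inl h0.symm⟩
    | succ t ih =>
      rcases ih (by omega) with k | ⟨a, a1, a2, a3⟩
      · exact Or.inl k
      rcases h2 t ht with e | e
      · exact Or.inr ⟨a, a1, a2.tail ⟨e, out t (by omega) ⟨t + 1, ht, Or.inl rfl, e⟩⟩,
          Or.inr ⟨t, rfl, e⟩⟩
      rcases a3 with rfl | ⟨u, rfl, a3⟩
      · exact Or.inr ⟨_, .head ⟨e, out _ ht ⟨t, by omega, Or.inr rfl, e⟩⟩ a1, .refl, Or.inl rfl⟩
      · obtain ⟨d, d1, d2⟩ := (h3 u ht).2 ⟨a3, e⟩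
        obtain ⟨c, c1, c2⟩ := stop _ _ d1 d2
        exact Or.inl ⟨c, c1, a, a1, a2.trans c2⟩
  exact (key m le_rfl).imp_right fun ⟨a, a1, a2, _⟩ => ⟨a, a1, h1 ▸ a2⟩

omit [Fintype V] [DecidableEq V] in
theorem dsep (R : Rk E r) {i j : V} {Z : Finset V} (hi : i ∉ Z) (hj : j ∉ Z) (h : ¬DSep E i j Z) :
    ((∃ c ∈ Z, CA (fun x y => E x y ∧ x ∉ Z) i c) ∧ ∃ c ∈ Z, CA (fun x y => E x y ∧ x ∉ Z) j c) ∨
      CA (fun x y => E x y ∧ x ∉ Z) i j := by
  simp only [DSep, not_forall, not_exists, not_and, not_or] at h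
  obtain ⟨m, p, ⟨h0, h1, -, h2⟩, h3⟩ := h
  have h4 : ∀ t, t + 2 ≤ m → (¬Collider E p t → p (t + 1) ∉ Z) ∧
      (Collider E p t → ∃ d, ReflTransGen E (p (t + 1)) d ∧ d ∈ Z) := fun t ht =>
    ⟨(h3 t ht).1, fun c => by simpa using (h3 t ht).2 c⟩
  rcases active R hi hj h0 h1 h2 h4 with a | a
  swap
  · exact Or.inr a
  rcases active R hj hi (m := m) (p := fun t => p (m - t)) (by simpa) (by simpa) (fun t ht => by
      have := h2 (m - (t + 1)) (by omega)
      rw [show m - (t + 1) + 1 = m - t by omega] at this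
      exact this.symm) (fun t ht => by
      have := h4 (m - (t + 2)) (by omega)
      simp only [Collider, show m - (t + 2) + 1 = m - (t + 1) by omega,
        show m - (t + 2) + 2 = m - t by omega] at this ⊢
      rwa [and_comm (a := E (p (m - t)) _)]) with b | b
  exacts [Or.inl ⟨a, b⟩, Or.inr b.symm]

theorem tri (R : Rk E r) {Λ : Matrix V V ℝ} (h : ∀ i j, ¬E i j → Λ i j = 0) :
    (1 - Λ).BlockTriangular r := fun i j e => by
  rw [Matrix.sub_apply, one_apply_ne fun k => by simp [k] at e, h _ _ fun k => by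
    have := R.mono _ _ k; omega, sub_zero]

theorem unit (R : Rk E r) {Λ : Matrix V V ℝ} (h : ∀ i j, ¬E i j → Λ i j = 0) :
    IsUnit (1 - Λ).det := by
  let _ : LinearOrder V := LinearOrder.lift' r R.inj
  have := det_of_upperTriangular (M := 1 - Λ) (tri R h)
  rw [Finset.prod_eq_one fun i _ => by simp [h i i fun k => (R.mono _ _ k).false]] at this
  convert isUnit_one

variable [DecidableRel E]

theorem IG_eq (R : Rk E r) {s : V → V → MvPolynomial (V ⊕ V × V) ℝ} (h : PSys E r s) :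
    IG E = RingHom.ker (aeval (Sym2.lift ⟨s, h.symm⟩) : _ →ₐ[ℝ] _) := by
  have cmp : ∀ (z : V ⊕ V × V → ℝ) (p : Sym2 V → ℝ), (∀ i j, p s(i, j) = aeval z (s i j)) →
      ∀ f, aeval p f = aeval z (aeval (Sym2.lift ⟨s, h.symm⟩) f) := fun z p hp f => by
    rw [← AlgHom.comp_apply, comp_aeval]
    congr 2
    ext e
    induction e using Sym2.ind with
    | _ i j => simpa using hp i j
  have sm : ∀ (S Λ : Matrix V V ℝ), (∀ i j, ¬E i j → Λ i j = 0) → ∀ i j,
      (S * (1 - Λ)) i j = S i j - ∑ c with E c j, S i c * Λ c j := fun S Λ hΛ i j => by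
    rw [Matrix.mul_sub, Matrix.mul_one, Matrix.sub_apply, mul_apply, Finset.sum_filter]
    congr 1
    refine Finset.sum_congr rfl fun c _ => ?_
    split_ifs with e
    exacts [rfl, by rw [hΛ _ _ e, mul_zero]]
  ext f
  rw [IG, mem_vanishingIdeal_iff, RingHom.mem_ker]
  refine ⟨fun hf => ?_, ?_⟩
  · let Λp : Matrix V V (MvPolynomial (V ⊕ V × V) ℝ) :=
      of fun i j => if E i j then X (.inr (i, j)) else 0
    let Dp := (1 - Λp)ᵀ * (of s * (1 - Λp))
    let z0 : V ⊕ V × V → ℝ := Sum.elim 1 0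
    have ev : ∀ z : V ⊕ V × V → ℝ, Dp.map (eval z) =
        (1 - Λp.map (eval z))ᵀ * ((of s).map (eval z) * (1 - Λp.map (eval z))) := fun z => by
      simp [Dp, Matrix.map_mul, transpose_map, Matrix.map_sub]
    have o : {z | ∀ c, 0 < eval z (Dp c c)} ∈ nhds z0 := by
      refine Filter.eventually_all.2 fun c => (isOpen_lt continuous_const
        (continuous_eval _)).mem_nhds ?_
      have : Λp.map (eval z0) = 0 := by
        ext i j; by_cases e : E i j <;> simp [Λp, z0, e]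
      have := congrFun₂ (this ▸ ev z0) c c
      simp only [Matrix.map_apply] at this
      simp [this, h.diag, z0]
    obtain ⟨ε, e0, e1⟩ := Metric.mem_nhds_iff.1 o
    refine funext_set (fun x => Set.Ioo (z0 x - ε) (z0 x + ε))
      (fun x => Set.Ioo_infinite (by linarith)) fun z hz => ?_
    have hz := e1 (show z ∈ Metric.ball z0 ε by simpa [ball_pi _ e0, Real.ball_eq_Ioo] using hz)
    have hΛ : ∀ i j, ¬E i j → Λp.map (eval z) i j = 0 := fun i j e => by simp [Λp, e]
    rw [map_zero, ← coe_aeval_eq_eval]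
    refine (cmp z (Sym2.lift ⟨fun i j => eval z (s i j), fun i j => congrArg _ (h.symm i j)⟩)
      (fun i j => rfl) f).symm.trans (hf _ ⟨_, fun c => eval z (Dp c c), hΛ, hz, fun i j => ?_⟩)
    have d1 : ∀ i j, r i < r j → eval z (Dp i j) = 0 := fun i j e => by
      have := congrFun₂ (ev z) i j
      rw [Matrix.map_apply, mul_apply] at this
      rw [this]
      refine Finset.sum_eq_zero fun k _ => ?_
      rcases lt_or_ge (r i) (r k) with e' | e'
      · rw [transpose_apply, tri R hΛ e', zero_mul]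
      · refine mul_eq_zero_of_right _ ?_
        rw [sm _ _ hΛ, Matrix.map_apply, of_apply, h.recu _ _ (e'.trans_lt e), map_sum, sub_eq_zero]
        exact Finset.sum_congr rfl fun c hc => by simp [Λp, (Finset.mem_filter.1 hc).2]
    have d2 : Dpᵀ = Dp := by
      have : (of s)ᵀ = of s := by ext1 i j; exact h.symm _ _
      simp only [Dp, transpose_mul, transpose_transpose, this, Matrix.mul_assoc]
    have d3 : diagonal (fun c => eval z (Dp c c)) = Dp.map (eval z) := by
      ext i j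
      rcases lt_trichotomy (r i) (r j) with e | e | e
      · rw [diagonal_apply_ne _ fun k => by simp [k] at e, Matrix.map_apply, d1 _ _ e]
      · simp [R.inj e]
      · rw [diagonal_apply_ne _ fun k => by simp [k] at e, Matrix.map_apply, ← d2, transpose_apply,
          d1 _ _ e]
    rw [d3, ev, ← Matrix.mul_assoc, ← transpose_mul, mul_nonsing_inv _ (unit R hΛ), transpose_one,
      Matrix.one_mul, mul_nonsing_inv_cancel_right _ _ (unit R hΛ)]
    rfl
  · rintro hf p ⟨Λ, ω, h1, -, h2⟩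
    have := (unit R h1).invertible
    have := invertibleOfDetInvertible (1 - Λ)
    have sy : Sys E r (fun c => p s(c, c)) Λ fun i j => p s(i, j) := by
      refine ⟨fun k l => by rw [Sym2.eq_swap], fun _ => rfl, fun i j e => ?_⟩
      have := sm ((1 - Λ)⁻¹ᵀ * diagonal ω * (1 - Λ)⁻¹) Λ h1 i j
      rw [nonsing_inv_mul_cancel_right _ _ (unit R h1), mul_diagonal, transpose_apply,
        blockTriangular_inv_of_blockTriangular (tri R h1) e, zero_mul, eq_comm, sub_eq_zero] at this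
      simpa only [h2]
    have := h.map (aeval (Sum.elim (fun c => p s(c, c)) fun e : V × V => Λ e.1 e.2) : _ →ₐ[ℝ] ℝ)
    simp only [aeval_X, Sum.elim_inl, Sum.elim_inr] at this
    rw [cmp _ p (sy.uniq R this), hf, map_zero]

theorem result : ∀ (n : ℕ) (E : Fin n → Fin n → Prop), (∀ i, ¬TransGen E i i) →
    ∀ i j : Fin n, i ≠ j → ¬E i j → ¬E j i →
    (∀ Z : Finset (Fin n), i ∉ Z → j ∉ Z → DSep E i j Z → 2 ≤ Z.card) →
    ¬Binomial (IG E) ∧ ¬MonKer (IG E) := by
  classical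
  intro n E hE i j hij h1 h2 h3
  suffices ¬Bin (IG E) from ⟨this, fun ⟨σ, χ, a, b⟩ => this (b ▸ bin_ker χ a)⟩
  intro hb
  let r0 : Fin n → ℕ := fun v => (Finset.univ.filter fun u => TransGen E u v).card
  have R : Rk E fun v => v.1 + n * r0 v := by
    refine ⟨fun a b e => Fin.ext ?_, fun k l e => ?_⟩
    · simpa [Nat.mod_eq_of_lt] using congrArg (· % n) e
    · have : r0 k < r0 l := Finset.card_lt_card ⟨fun u hu => by
        simpa using TransGen.tail (by simpa using hu) e, fun h => hE k (by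
          simpa using h (x := k) (by simpa using TransGen.single e))⟩
      have := k.2
      nlinarith
  have S := sol_sys R (fun c => (X (.inl c) : MvPolynomial (Fin n ⊕ Fin n × Fin n) ℝ))
    fun k l => X (.inr (k, l))
  rw [IG_eq R S] at hb
  have n0 : CA E i j := by
    rcases dsep R (Z := ∅) (by simp) (by simp) fun h => by simpa using h3 ∅ (by simp) (by simp) h
      with a | ⟨x, a, b⟩
    · simp at a
    · exact ⟨x, rmono a fun _ _ e => e.1, rmono b fun _ _ e => e.1⟩
  have n1 : ∀ c, i ≠ c → j ≠ c → (CA (Lc E c) i c ∧ CA (Lc E c) j c) ∨ CA (Lc E c) i j :=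
    fun c a b => by
      have := dsep R (i := i) (j := j) (Z := {c}) (by simpa) (by simpa) fun h => by
        simpa using h3 {c} (by simpa) (by simpa) h
      simp only [Finset.mem_singleton, exists_eq_left] at this
      exact this
  have cr := fun i j => core R S (fun k l => s(k, l)) (fun k l c e => by simpa using e) _
    (fun k l => by simp) hb (i := i) (j := j)
  rcases lt_trichotomy (i.1 + n * r0 i) (j.1 + n * r0 j) with e | e | e
  · obtain ⟨c, a, b, d⟩ := cr i j e h1 n0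
    have := n1 c (fun k => h1 (k ▸ a)) fun k => hE j (.single (k ▸ a))
    tauto
  · exact hij (R.inj e)
  · obtain ⟨c, a, b, d⟩ := cr j i e h2 n0.symm
    rcases n1 c (fun k => hE i (.single (k ▸ a))) fun k => h2 (k ▸ a) with x | x
    · tauto
    · exact b x.symm

end Pool.Agent.Results.MP_3a69bf_ag.NotToric
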